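import Pool.Agent.Helper30E.E1

/-!
# Energy equality when one component of the velocity is in a critical Serrin class

Let `(u, p)` be a suitable weak periodic solution of the Navier-Stokes equations with viscosity
`ν > 0`, and let one component `u_j` of the velocity be in `L^m(0, T; L^q)`, `2 / m + 3 / q = 1`,
`3 < q < ∞`, no smallness. Then the local energy equality and the energy equality hold.

It is not known whether such a solution is regular. The proof shows that the energy and the
dissipation in the slabs `|x_j - c| < r` grow slowly as `r` tends to `0`, that the singular set has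
parabolic dimension zero, and that the defect of the energy balance cannot live on such a set.

`V = Fin 3 → ℝ` with the maximum norm, `cube = [0,1]³`. See the claim file for the definitions.
-/

set_option autoImplicit false

open MeasureTheory Set
open scoped ENNReal

namespace Pool.Agent.Results.MP_a38b17_an.CriticalComponent

open H459R3.NS W221.NS Pool.Agent.Y8

/-- The `j`-th component is in `L^m` of time with values in `L^q` of space. -/
def Component (m q : ℝ) (G : Set ℝ) (u : ℝ → V → V) (j : Fin 3) : Prop :=
  ∫⁻ t in G, (∫⁻ x in cube, ‖u t x j‖ₑ ^ q) ^ (m / q) ≠ ⊤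

theorem result (ν T E D : ℝ) (G : Set ℝ) (u : ℝ → V → V) (p : ℝ → V → ℝ) (hν : 0 < ν)
    (hu : Turb ν T E D G u p) (j : Fin 3) (m q : ℝ) (hm : 2 ≤ m) (hq : 3 < q)
    (hqm : 2 / m + 3 / q = 1) (hY : Component m q G u j) :
    (∀ φ : ℝ → V → ℝ, Test T φ → (∀ t x, 0 ≤ φ t x) → ∫ t in G, DD ν u p φ t = 0) ∧
    ∀ s ∈ G, ∀ t ∈ G, s ≤ t →
      energy (u t) + 2 * ν * (∫ τ in Ioo s t, enstrophy (u τ)) = energy (u s) := by
  have hc := Pool.Agent.Helper30E.covs_class hν hu hq hm hqm j hY
  exact ⟨fun φ hφ hφ0 => Pool.Agent.Helper30E.loc_of_covs hν hu hc hφ hφ0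
    fun t x h1 h2 => ⟨(hφ.supp h1).1, h2⟩,
    Pool.Agent.Helper30E.glob_of_covs hν hu hc fun t ht x hs => ⟨ht, hs⟩⟩

end Pool.Agent.Results.MP_a38b17_an.CriticalComponent
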