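import Pool.Agent.Helper30E.T8

/-!
# Energy equality: the times which carry the energy defect

Let `u` be a weak solution of the Navier-Stokes equations in an arbitrary open set `Ω ⊆ ℝ³`; no
energy inequality is assumed. Let `∇u` be in `L^p(0,T;L²)`, where `2 ≤ p < 5/2`; for `p = 2` this holds
for each weak solution, and `p = 5/2` is the exponent for which the energy equality is known. Let

`d = (10 - 4 p) / (10 - 3 p)`,

so that `d = 1/2` for `p = 2`, and `d` tends to `0` as `p` tends to `5/2`.

Let `D` be the energy defect of `u`, and let `E` be the set of the times `t` with the two properties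

* `∫_J ‖∇u‖^p` is not bounded by `C |J|^d` for the short intervals `J ⊆ [0,T]` which contain `t`,
* `|D(s) - D(t)|` is not bounded by `C |s - t|^d` for the times `s` close to `t`.

Then

1. the `d`-dimensional Hausdorff measure of `E` is zero,
2. the set of the times near which `D` is not constant (near which the energy equality fails) is the
   closure of `E`,
3. `D` maps the set of all other times, `[0,T] \ E`, to a set of measure zero.

So the energy equality holds if and only if `E` is empty; for instance, if the energy defect is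
Hölder continuous with the exponent `d` at each time, with constants which depend on the time in any
way.
-/

set_option autoImplicit false

open MeasureTheory Set

namespace Pool.Agent.Results.MP_a38b17_an.DefectCarrier

open H772R2.NS.Pub Pool.Agent.TH301.EQ

/-- The time `t` has the growth exponent `a`: for a constant `C` and all short intervals `[x, y]` in
`[0, T]` which contain `t` the integral of `g` over `[x, y]` is at most `C (y - x) ^ a`. -/
def Growth (T : ℝ) (g : ℝ → ℝ) (a t : ℝ) : Prop :=
  ∃ C δ : ℝ, 0 < δ ∧ ∀ x y, 0 ≤ x → x ≤ t → t ≤ y → y ≤ T → y - x ≤ δ →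
    ∫ τ in x..y, g τ ≤ C * (y - x) ^ a

/-- The function `D` is Hölder continuous with the exponent `a` at the time `t`:
`|D(s) - D(t)| ≤ C |s - t| ^ a` for a constant `C` and all `s` in `[0, T]` close to `t`. -/
def Hoelder (T : ℝ) (D : ℝ → ℝ) (a t : ℝ) : Prop :=
  ∃ C δ : ℝ, 0 < δ ∧ ∀ s ∈ Icc 0 T, |s - t| ≤ δ → |D s - D t| ≤ C * |s - t| ^ a

/-- The exceptional times in `[0, T]`: those at which neither the integral of `g` has the growth
exponent `a` nor the function `D` is Hölder continuous with the exponent `a`. -/
def Exceptional (T : ℝ) (g D : ℝ → ℝ) (a : ℝ) : Set ℝ :=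
  {t | t ∈ Icc 0 T ∧ ¬ Growth T g a t ∧ ¬ Hoelder T D a t}

/-- Let `u` be a weak solution of the Navier-Stokes equations in an open set `Ω ⊆ ℝ³` (no energy
inequality is assumed), with gradient `G`, force `f` and energy defect `D`. Let `2 ≤ p < 5/2`, let
`‖G‖ ^ p` be integrable on `(0,T)` (for `p = 2` this is the case for each weak solution), and let
`d = (10 - 4 p) / (10 - 3 p)`. Let `E` be the set of the times at which neither `∫ ‖G‖ ^ p` has the
growth exponent `d` nor `D` is Hölder continuous with the exponent `d`. Then `E` has zero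
`d`-dimensional Hausdorff measure, the closure of `E` is the set of the times near which `D` is not
constant, and `D` maps `[0,T] \ E` to a null set. The energy equality holds on `[0,T]` if and only if
`E` is empty. -/
theorem result {Ω : Set R3} (hΩ : IsOpen Ω) {ν T : ℝ} (hν : 0 < ν) (hT : 0 < T)
    {u : ℝ → L2 Ω R3} {G : ℝ → L2 Ω Mat} {f : ℝ → L2 Ω R3} (hu : IsWeakSolution Ω ν T u G f)
    {p : ℝ} (hp : 2 ≤ p) (hp' : p < 5 / 2)
    (hG : p = 2 ∨ IntegrableOn (fun t => ‖G t‖ ^ p) (Ioo 0 T)) {d : ℝ}
    (hd : d = (10 - 4 * p) / (10 - 3 * p)) {E : Set ℝ}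
    (hE : E = Exceptional T (fun t => ‖G t‖ ^ p) (energyDefect ν u G f) d) :
    μH[d] E = 0 ∧ rough T (energyDefect ν u G f) = closure E ∧
    volume (energyDefect ν u G f '' (Icc 0 T \ E)) = 0 ∧
    (E = ∅ ↔ ∀ t ∈ Icc 0 T, energyDefect ν u G f t = 0) := by
  have hG' : IntegrableOn (fun t => ‖G t‖ ^ p) (Ioo 0 T) := by
    rcases hG with h | h
    · rw [h]
      refine (pub_G2 hu).congr_fun (fun t _ => ?_) measurableSet_Ioo
      change ‖G t‖ ^ 2 = ‖G t‖ ^ (2 : ℝ)
      rw [Real.rpow_two]
    · exact h
  obtain ⟨h1, h2, h3⟩ := Pool.Agent.Helper30E.pub_carrier hΩ hν.le hT hu hp hp' hG'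
  rw [← hd] at h1 h2 h3
  have e : Pool.Agent.Helper30E.exceptional T (fun t => ‖G t‖ ^ p) (energyDefect ν u G f) d = E :=
    hE.symm
  rw [e] at h1 h2 h3
  refine ⟨h1, h2, h3, fun h t ht => ?_, fun h => ?_⟩
  swap
  · rw [hE, eq_empty_iff_forall_notMem]
    rintro t ⟨ht, _, h4⟩
    refine h4 ⟨0, 1, one_pos, fun s hs _ => ?_⟩
    rw [h s hs, h t ht, sub_self, abs_zero, zero_mul]
  have hempty : ∀ t, t ∉ rough T (energyDefect ν u G f) := by
    intro t ht
    rw [h2, h, closure_empty] at ht
    exact ht
  rw [const_of_flat le_rfl ht.1 ht.2 (fun s _ => hempty s),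
    pub_defect_eq hΩ hν.le hT hu ⟨le_rfl, hT.le⟩]
  exact H772R2.NS.Sol.defect_zero

end Pool.Agent.Results.MP_a38b17_an.DefectCarrier
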