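import Pool.Agent.Helper30E.T4

/-!
# Energy equality: the size of the set of exceptional times against the growth of the dissipation

Let `u` be a weak solution of the Navier-Stokes equations in an arbitrary open set `Ω ⊆ ℝ³` (no
energy inequality is assumed). A time `t` has the growth exponent `a` if `∫_J ‖∇u‖² ≤ C |J|^a` for
all short intervals `J ⊆ [0,T]` which contain `t`; the constant `C` depends on `t` in any way. The
exponent `1 / 2` is that of the type I times.

Let `S n` be sets of times, and let `S n` have Hausdorff measure zero in the dimension `d n`. Suppose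
that each time near which the energy equality fails

* has the growth exponent `1 / 2`, or
* is in `S n` for an `n`, with the growth exponent `(1 + 3 d n) / 5`, or
* is in a given countable set `N` of times at which the energy does not jump.

Then the energy equality holds on `[0,T]`. For `d < 1 / 2` the exponent `(1 + 3 d) / 5` is less than
`1 / 2`: so a growth faster than that of type I is allowed on sets of dimension less than `1 / 2`; as
`d` tends to zero the exponent tends to `1 / 5`.
-/

set_option autoImplicit false

open MeasureTheory Set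

namespace Pool.Agent.Results.MP_a38b17_an.ExceptionalTimes

open H772R2.NS.Pub Pool.Agent.TH301.EQ

/-- The time `t` has the growth exponent `a`: for a constant `C` and all short intervals `[x, y]` in
`[0, T]` which contain `t` the integral of `g` over `[x, y]` is at most `C (y - x) ^ a`. -/
def Growth (T : ℝ) (g : ℝ → ℝ) (a t : ℝ) : Prop :=
  ∃ C δ : ℝ, 0 < δ ∧ ∀ x y, 0 ≤ x → x ≤ t → t ≤ y → y ≤ T → y - x ≤ δ →
    ∫ τ in x..y, g τ ≤ C * (y - x) ^ a

/-- Let `u` be a weak solution of the Navier-Stokes equations in an open set `Ω ⊆ ℝ³` (no energy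
inequality is assumed), with gradient `G`, force `f` and energy defect `D`. Let `N` be a countable
set of times at which `‖u‖` does not jump, and let `S n` be sets of times of zero `d n`-dimensional
Hausdorff measure, `0 < d n ≤ 1`. If each time near which `D` is not constant is in `N`, or has the
growth exponent `1 / 2`, or is in `S n` and has the growth exponent `(1 + 3 d n) / 5` for an `n`, then
`D = 0` on `[0,T]`. -/
theorem result {Ω : Set R3} (hΩ : IsOpen Ω) {ν T : ℝ} (hν : 0 < ν) (hT : 0 < T)
    {u : ℝ → L2 Ω R3} {G : ℝ → L2 Ω Mat} {f : ℝ → L2 Ω R3} (hu : IsWeakSolution Ω ν T u G f)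
    {N : Set ℝ} (hN : N.Countable) (hJ : ∀ t ∈ N, NoJump T u t)
    {S : ℕ → Set ℝ} {d : ℕ → ℝ} (hd : ∀ n, 0 < d n ∧ d n ≤ 1) (hS : ∀ n, μH[d n] (S n) = 0)
    (h : ∀ t ∈ rough T (energyDefect ν u G f), t ∈ N ∨
      Growth T (fun τ => ‖G τ‖ ^ 2) (1 / 2) t ∨
      ∃ n, t ∈ S n ∧ Growth T (fun τ => ‖G τ‖ ^ 2) ((1 + 3 * d n) / 5) t) :
    ∀ t ∈ Icc 0 T, energyDefect ν u G f t = 0 :=
  Pool.Agent.Helper30E.pub_exc_eq hΩ hν.le hT hu hN hJ (fun n => (hd n).1) (fun n => (hd n).2) hS h

end Pool.Agent.Results.MP_a38b17_an.ExceptionalTimes
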