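import Pool.Agent.Helper30E.G2

/-!
# Energy equality: the size of the singular set against the growth of the dissipation

Let `(u, p)` be a suitable weak periodic solution of the Navier-Stokes equations with viscosity
`ν > 0`. Let `k ≥ 1` be a function on `(0, r₀]` which does not decrease as `r` tends to `0`, and let
`S` be a set of points of space-time such that

* at each singular point of `S` the dissipation `∫ |∇u|²` in the parabolic cylinders of radius `r`
  around the point is `O(r k(r))`, with a constant which depends on the point in any way;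
* `S` has parabolic Hausdorff measure zero for the gauge `r k(r)²`.

Then the defect measure of the local energy inequality of `(u, p)` vanishes on `S`. The same holds
for countable unions of such sets, each with its own function `k`. In particular, if all the singular
points are in such a union, the energy equality holds. For example, it is enough that the dissipation
is `O(r^(1 - a))` at each singular point, `0 ≤ a < 1 / 2`, and that the singular set has parabolic
Hausdorff measure zero in the dimension `1 - 2 a`. (For `a = 0` this follows from the theorem of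
Caffarelli, Kohn and Nirenberg.)

`V = Fin 3 → ℝ` with the maximum norm. See the claim file for the definitions.
-/

set_option autoImplicit false

open MeasureTheory Set
open scoped ENNReal

namespace Pool.Agent.Results.MP_a38b17_an.SparseSingularSet

open H459R3.NS W221.NS Pool.Agent.Y8

/-- The dissipation in the parabolic cylinder of radius `r` around `(t, x)`. -/
noncomputable def Diss (ν : ℝ) (G : Set ℝ) (u : ℝ → V → V) (t : ℝ) (x : V) (r : ℝ) : ℝ≥0∞ :=
  ∫⁻ q in {q : ℝ × V | q.1 ∈ G ∧ ν * |q.1 - t| < r ^ 2 ∧ ‖q.2 - x‖ < r},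
    ENNReal.ofReal (gsq (u q.1) q.2)

/-- At the point `(t, x)` the dissipation is `O(h)`; the constant depends on the point. -/
def Tame (ν : ℝ) (h : ℝ → ℝ) (G : Set ℝ) (u : ℝ → V → V) (t : ℝ) (x : V) : Prop :=
  ∃ K : ℝ, ∃ r₁ > 0, ∀ r ∈ Ioo 0 r₁, Diss ν G u t x r ≤ ENNReal.ofReal (K * h r)

/-- The set `S` has parabolic Hausdorff measure zero for the gauge `g`: for every `ε > 0` it is
covered by countably many parabolic cylinders of radii `rᵢ ≤ ε` with `∑ g(rᵢ) ≤ ε`. -/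
def Null (ν : ℝ) (g : ℝ → ℝ) (S : Set (ℝ × V)) : Prop :=
  ∀ ε > 0, ∃ (ι : Type) (_ : Countable ι) (s : ι → ℝ) (y : ι → V) (r : ι → ℝ),
    (∀ i, 0 < r i ∧ r i ≤ ε) ∧ ∑' i, ENNReal.ofReal (g (r i)) ≤ ENNReal.ofReal ε ∧
      ∀ t x, (t, x) ∈ S → ∃ i, ν * |t - s i| < r i ^ 2 ∧ ‖x - y i‖ < r i

theorem result (ν T E D : ℝ) (G : Set ℝ) (u : ℝ → V → V) (p : ℝ → V → ℝ) (hν : 0 < ν)
    (hu : Turb ν T E D G u p) (k : ℕ → ℝ → ℝ) (r₀ : ℕ → ℝ) (S : ℕ → Set (ℝ × V))
    (hr₀ : ∀ n, 0 < r₀ n) (hk : ∀ n, ∀ r ∈ Ioc 0 (r₀ n), 1 ≤ k n r)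
    (hmono : ∀ n, AntitoneOn (k n) (Ioc 0 (r₀ n)))
    (hS : ∀ n, Null ν (fun r => r * k n r ^ 2) (S n))
    (hT : ∀ n, ∀ t ∈ Ioo 0 T, ∀ x, (t, x) ∈ S n → SingPt G u t x →
      Tame ν (fun r => r * k n r) G u t x) :
    (∀ ε : ℝ, 0 < ε → ∃ U : Set (ℝ × V), IsOpen U ∧
      (∀ t ∈ Ioo 0 T, ∀ x : V, (SingPt G u t x → ∃ n, (t, x) ∈ S n) → (t, x) ∈ U) ∧
      ∀ ψ : ℝ → V → ℝ, Test T ψ → (∀ t x, 0 ≤ ψ t x) → (∀ t x, ψ t x ≤ 1) →
        tsupport (fun z : ℝ × V => ψ z.1 z.2) ⊆ U → ∫ t in G, DD ν u p ψ t ≤ ε) ∧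
    (∀ φ : ℝ → V → ℝ, Test T φ → (∀ t x, 0 ≤ φ t x) →
      (∀ t x, (t, x) ∈ tsupport (fun z : ℝ × V => φ z.1 z.2) → SingPt G u t x →
        ∃ n, (t, x) ∈ S n) → ∫ t in G, DD ν u p φ t = 0) ∧
    ((∀ t ∈ Ioo 0 T, ∀ x, SingPt G u t x → ∃ n, (t, x) ∈ S n) →
      ∀ s ∈ G, ∀ t ∈ G, s ≤ t →
        energy (u t) + 2 * ν * (∫ τ in Ioo s t, enstrophy (u τ)) = energy (u s)) := by
  have hc : Pool.Agent.Helper30E.CovS ν T G u p (⋃ n, S n) :=
    Pool.Agent.Helper30E.covs_iUnion fun n =>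
      Pool.Agent.Helper30E.covs_null hν hu (hr₀ n) (hk n) (hmono n) (hS n) (hT n)
  refine ⟨fun ε hε => ?_, fun φ hφ hφ0 hd => ?_, fun hd => ?_⟩
  · obtain ⟨U, h1, h2, h3⟩ := Pool.Agent.Helper30E.conc_of_covs hν hu hc ε hε
    exact ⟨U, h1, fun t ht x hx => h2 t ht x fun hs => mem_iUnion.2 (hx hs), h3⟩
  · exact Pool.Agent.Helper30E.loc_of_covs hν hu hc hφ hφ0
      fun t x h1 h2 => mem_iUnion.2 (hd t x h1 h2)
  · exact Pool.Agent.Helper30E.glob_of_covs hν hu hc
      fun t ht x hs => mem_iUnion.2 (hd t ht x hs)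

end Pool.Agent.Results.MP_a38b17_an.SparseSingularSet
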